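import Mathlib
import Pool.Agent.H72.Spiral.Main

/-! Inscribed squares in Jordan curves that contain a slow spiral. -/

set_option autoImplicit false

namespace Pool.Agent.Results.MP_5a3ebe_gt.SlowSpirals

open Real Filter Topology

/-- Let `C` be a Jordan curve, the image of the continuous injective map `γ` of the circle. Suppose
that `C` contains an arc that turns infinitely often around a point `p`, the points
`p + ρ φ * exp (± i φ)` with `φ ≥ T`, where `ρ > 0` is continuous and
(1) `ρ` is decreasing up to a lag of `30°`: `ρ ψ ≤ ρ φ` for `ψ ≥ φ + π / 6`;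
(2) each turn shrinks by at most ten per cent: `ρ (φ + 2 π) ≥ 9 / 10 * ρ φ`;
(3) there are nearly circular portions with any number `N` of turns: for all `N` and `ε > 0` there is
`φ ≥ T` with `ρ (φ + 2 π N) ≥ (1 - ε) * ρ φ`.
Then `C` contains the four vertices of a square. Nothing is asked of the rest of the curve.

All conditions hold for large `T` if `ρ` is any decreasing function with
`ρ (φ + 2 π) / ρ φ → 1` as `φ → ∞`, for instance `φ ^ (- s)`, `1 / log φ` or `exp (- √φ)`. -/
theorem result (γ : Circle → ℂ) (hγ : Continuous γ) (_hinj : Function.Injective γ) (p : ℂ) (σ : ℝ)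
    (hσ : σ = 1 ∨ σ = -1) (T : ℝ) (ρ : ℝ → ℝ) (hρ : ContinuousOn ρ (Set.Ici T))
    (hpos : ∀ φ, T ≤ φ → 0 < ρ φ)
    (hmono : ∀ φ, T ≤ φ → ∀ ψ, φ + π / 6 ≤ ψ → ρ ψ ≤ ρ φ)
    (hturn : ∀ φ, T ≤ φ → 9 / 10 * ρ φ ≤ ρ (φ + 2 * π))
    (hslow : ∀ N : ℕ, ∀ ε : ℝ, 0 < ε → ∃ φ, T ≤ φ ∧ (1 - ε) * ρ φ ≤ ρ (φ + N * (2 * π)))
    (hsub : ∀ φ : ℝ, T ≤ φ → p + ρ φ * Complex.exp (σ * φ * Complex.I) ∈ Set.range γ) :
    ∃ z w : ℂ, w ≠ 0 ∧ z ∈ Set.range γ ∧ z + w ∈ Set.range γ ∧
      z + w + Complex.I * w ∈ Set.range γ ∧ z + Complex.I * w ∈ Set.range γ := by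
  have hpi := Real.pi_pos
  -- extend `ρ` to a continuous function on the line
  obtain ⟨g, hg⟩ : ∃ g : ℝ → ℝ, g = fun t => ρ (max T t) := ⟨_, rfl⟩
  have gT : ∀ t, T ≤ t → g t = ρ t := fun t ht => by rw [hg]; simp only [max_eq_right ht]
  have gc : Continuous g := by
    rw [hg]
    exact hρ.comp_continuous (by fun_prop) (fun t => Set.mem_Ici.2 (le_max_left T t))
  have S : Pool.Agent.H72.Spiral.Slow g T :=
    { cont := gc
      pos := fun φ hφ => by rw [gT φ hφ]; exact hpos φ hφ
      mono := fun φ hφ ψ hψ => by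
        rw [gT φ hφ, gT ψ (by linarith)]; exact hmono φ hφ ψ hψ
      turn := fun φ hφ => by
        rw [gT φ hφ, gT (φ + 2 * π) (by linarith)]; exact hturn φ hφ }
  have h2 : ∀ N : ℕ, ∀ ε : ℝ, 0 < ε → ∃ φ, T ≤ φ ∧ (1 - ε) * g φ ≤ g (φ + N * (2 * π)) := by
    intro N ε hε
    obtain ⟨φ, hφ, h⟩ := hslow N ε hε
    have : 0 ≤ (N : ℝ) * (2 * π) := by positivity
    exact ⟨φ, hφ, by rw [gT φ hφ, gT _ (by linarith)]; exact h⟩
  -- the limit of the radius
  obtain ⟨L, hL⟩ : ∃ L, L = sInf (g '' Set.Ici T) := ⟨_, rfl⟩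
  have hbdd : BddBelow (g '' Set.Ici T) :=
    ⟨0, by rintro _ ⟨t, ht, rfl⟩; exact (S.pos t ht).le⟩
  have hne : (g '' Set.Ici T).Nonempty := ⟨g T, T, Set.self_mem_Ici, rfl⟩
  have hle : ∀ t, T ≤ t → L ≤ g t := fun t ht => by
    rw [hL]; exact csInf_le hbdd ⟨t, ht, rfl⟩
  have hL0 : 0 ≤ L := by
    rw [hL]
    exact le_csInf hne (by rintro _ ⟨t, ht, rfl⟩; exact (S.pos t ht).le)
  have hlim : Tendsto g atTop (𝓝 L) := by
    rw [Metric.tendsto_atTop]
    intro η hη
    obtain ⟨_, ⟨t, ht, rfl⟩, hlt⟩ := exists_lt_of_csInf_lt hne (show sInf (g '' Set.Ici T) < L + η by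
      rw [← hL]; linarith)
    have ht' : T ≤ t := ht
    refine ⟨t + π / 6, fun s hs => ?_⟩
    have h1 := S.mono t ht' s hs
    have h3 := hle s (by linarith)
    rw [Real.dist_eq, abs_lt]
    constructor <;> linarith
  rcases hL0.eq_or_lt with h0 | h0
  · rw [← h0] at hlim
    obtain ⟨A, B, C, D, hA, hB, hC, hD, z, w, hw, eA, eB, eC, eD⟩ :=
      Pool.Agent.H72.Spiral.main S hlim h2
    rw [gT A hA] at eA
    rw [gT B hB] at eB
    rw [gT C hC] at eC
    rw [gT D hD] at eD
    rcases hσ with hσ | hσ
    · subst hσ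
      refine ⟨p + z, w, hw, ?_, ?_, ?_, ?_⟩
      · have := hsub A hA
        rw [Complex.ofReal_one, one_mul] at this
        rwa [eA]
      · have := hsub B hB
        rw [Complex.ofReal_one, one_mul] at this
        rwa [show p + z + w = p + (z + w) by ring, eB]
      · have := hsub C hC
        rw [Complex.ofReal_one, one_mul] at this
        rwa [show p + z + w + Complex.I * w = p + (z + w + Complex.I * w) by ring, eC]
      · have := hsub D hD
        rw [Complex.ofReal_one, one_mul] at this
        rwa [show p + z + Complex.I * w = p + (z + Complex.I * w) by ring, eD]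
    · subst hσ
      have key : ∀ t : ℝ, T ≤ t → ∀ v : ℂ, v = ρ t * Complex.exp (t * Complex.I) →
          p + (starRingEnd ℂ) v ∈ Set.range γ := by
        intro t ht v hv
        have h := hsub t ht
        have e : (starRingEnd ℂ) v = ρ t * Complex.exp (((-1 : ℝ) : ℂ) * t * Complex.I) := by
          rw [hv, map_mul, Complex.conj_ofReal, ← Complex.exp_conj, map_mul, Complex.conj_ofReal,
            Complex.conj_I]
          congr 2
          push_cast
          ring
        rwa [e]
      refine ⟨p + (starRingEnd ℂ) z, -Complex.I * (starRingEnd ℂ) w, ?_, key A hA z eA, ?_, ?_, ?_⟩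
      · refine mul_ne_zero (neg_ne_zero.2 Complex.I_ne_zero) ?_
        rwa [Ne, map_eq_zero]
      · have h := key D hD _ eD
        rw [map_add, map_mul, Complex.conj_I] at h
        rwa [add_assoc]
      · have h := key C hC _ eC
        rw [map_add, map_add, map_mul, Complex.conj_I] at h
        have e : p + (starRingEnd ℂ) z + -Complex.I * (starRingEnd ℂ) w +
            Complex.I * (-Complex.I * (starRingEnd ℂ) w) =
            p + ((starRingEnd ℂ) z + (starRingEnd ℂ) w + -Complex.I * (starRingEnd ℂ) w) := by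
          linear_combination (-(starRingEnd ℂ) w) * Complex.I_sq
        rwa [e]
      · have h := key B hB _ eB
        rw [map_add] at h
        have e : p + (starRingEnd ℂ) z + Complex.I * (-Complex.I * (starRingEnd ℂ) w) =
            p + ((starRingEnd ℂ) z + (starRingEnd ℂ) w) := by
          linear_combination (-(starRingEnd ℂ) w) * Complex.I_sq
        rwa [e]
  · -- the curve contains a circle
    have hcl : IsClosed (Set.range γ) := (isCompact_range hγ).isClosed
    have circ : ∀ θ : ℝ, p + L * Complex.exp (σ * θ * Complex.I) ∈ Set.range γ := by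
      intro θ
      obtain ⟨m, hm⟩ := exists_nat_ge ((T - θ) / (2 * π))
      have hm' : T - θ ≤ m * (2 * π) := by rwa [div_le_iff₀ (by positivity)] at hm
      refine hcl.mem_of_tendsto (b := atTop) (f := fun n : ℕ =>
        p + (g (θ + (n : ℝ) * (2 * π)) : ℂ) * Complex.exp (σ * θ * Complex.I)) ?_ ?_
      · refine Tendsto.const_add p (Tendsto.mul_const _ ?_)
        refine (Complex.continuous_ofReal.tendsto L).comp (hlim.comp ?_)
        refine tendsto_atTop_add_const_left _ _ ?_
        exact Tendsto.atTop_mul_const (by positivity) tendsto_natCast_atTop_atTop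
      · filter_upwards [eventually_ge_atTop m] with n hn
        have hn' : (m : ℝ) ≤ n := by exact_mod_cast hn
        have hT : T ≤ θ + n * (2 * π) := by nlinarith
        have h := hsub _ hT
        rw [gT _ hT]
        have e : Complex.exp (σ * ((θ + n * (2 * π) : ℝ) : ℂ) * Complex.I) =
            Complex.exp (σ * θ * Complex.I) := by
          rcases hσ with hσ | hσ
          · subst hσ
            rw [show (((1 : ℝ) : ℂ) * ((θ + n * (2 * π) : ℝ) : ℂ) * Complex.I) =
              ((1 : ℝ) : ℂ) * θ * Complex.I + n * (2 * π * Complex.I) by push_cast; ring,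
              Complex.exp_add, Complex.exp_nat_mul_two_pi_mul_I, mul_one]
          · subst hσ
            rw [show (((-1 : ℝ) : ℂ) * ((θ + n * (2 * π) : ℝ) : ℂ) * Complex.I) =
              ((-1 : ℝ) : ℂ) * θ * Complex.I + ((-n : ℤ) : ℂ) * (2 * π * Complex.I) by
                push_cast; ring,
              Complex.exp_add, Complex.exp_int_mul_two_pi_mul_I, mul_one]
        rwa [e] at h
    have pt : ∀ v : ℂ, (v = 1 ∨ v = Complex.I ∨ v = -1 ∨ v = -Complex.I) →
        p + L * v ∈ Set.range γ := by
      intro v hv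
      have hex : ∃ θ : ℝ, Complex.exp (σ * θ * Complex.I) = v := by
        have e0 : Complex.exp (σ * ((0 : ℝ) : ℂ) * Complex.I) = 1 := by simp
        have e2 : ∀ s : ℝ, s = 1 ∨ s = -1 → Complex.exp (s * ((s * π : ℝ) : ℂ) * Complex.I) = -1 := by
          intro s hs
          rcases hs with hs | hs <;> subst hs <;> simp [Complex.exp_pi_mul_I]
        have e1 : ∀ s : ℝ, s = 1 ∨ s = -1 →
            Complex.exp (s * ((s * (π / 2) : ℝ) : ℂ) * Complex.I) = Complex.I := by
          intro s hs
          have := Complex.exp_pi_div_two_mul_I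
          rcases hs with hs | hs <;> subst hs
          · push_cast; rw [one_mul, one_mul]; exact this
          · push_cast; rw [show (-1 : ℂ) * (-1 * (π / 2)) * Complex.I = π / 2 * Complex.I by ring]
            exact this
        have e3 : ∀ s : ℝ, s = 1 ∨ s = -1 →
            Complex.exp (s * ((-(s * (π / 2)) : ℝ) : ℂ) * Complex.I) = -Complex.I := by
          intro s hs
          have := Complex.exp_neg_pi_div_two_mul_I
          rcases hs with hs | hs <;> subst hs
          · push_cast; rw [show (1 : ℂ) * (-(1 * (π / 2))) * Complex.I = -π / 2 * Complex.I by ring]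
            exact this
          · push_cast; rw [show (-1 : ℂ) * (-(-1 * (π / 2))) * Complex.I = -π / 2 * Complex.I by ring]
            exact this
        rcases hv with hv | hv | hv | hv
        · exact ⟨0, by rw [e0, hv]⟩
        · exact ⟨_, by rw [e1 σ hσ, hv]⟩
        · exact ⟨_, by rw [e2 σ hσ, hv]⟩
        · exact ⟨_, by rw [e3 σ hσ, hv]⟩
      obtain ⟨θ, hθ⟩ := hex
      have := circ θ
      rwa [hθ] at this
    have hLc : (L : ℂ) ≠ 0 := by exact_mod_cast h0.ne'
    refine ⟨p + L * 1, L * (Complex.I - 1), ?_, pt 1 (Or.inl rfl), ?_, ?_, ?_⟩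
    · refine mul_ne_zero hLc ?_
      intro h
      have := congrArg Complex.im h
      simp at this
    · have := pt Complex.I (Or.inr (Or.inl rfl))
      rwa [show p + L * 1 + L * (Complex.I - 1) = p + L * Complex.I by ring]
    · have := pt (-1) (Or.inr (Or.inr (Or.inl rfl)))
      have e : p + L * 1 + L * (Complex.I - 1) + Complex.I * (L * (Complex.I - 1)) =
          p + L * (-1) := by
        linear_combination (L : ℂ) * Complex.I_sq
      rwa [e]
    · have := pt (-Complex.I) (Or.inr (Or.inr (Or.inr rfl)))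
      have e : p + L * 1 + Complex.I * (L * (Complex.I - 1)) = p + L * (-Complex.I) := by
        linear_combination (L : ℂ) * Complex.I_sq
      rwa [e]

end Pool.Agent.Results.MP_5a3ebe_gt.SlowSpirals
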